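import Mathlib

/-!
# MP_3f847c_gt: a compact convex set of scatteredly continuous functions whose weight exceeds the network
weight of the domain
-/

set_option autoImplicit false

open Set Topology TopologicalSpace Cardinal

universe u

namespace Pool.Agent.Results.MP_3f847c_gt.WeightExceedsNetworkWeight

/-- networks of a space -/
def IsNetwork {Z : Type u} [TopologicalSpace Z] (𝒩 : Set (Set Z)) : Prop :=
  ∀ z : Z, ∀ U : Set Z, IsOpen U → z ∈ U → ∃ N ∈ 𝒩, z ∈ N ∧ N ⊆ U

/-- the network weight (at least `ℵ₀` by convention) -/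
noncomputable def nw (Z : Type u) [TopologicalSpace Z] : Cardinal.{u} :=
  max ℵ₀ (sInf {κ | ∃ 𝒩 : Set (Set Z), IsNetwork 𝒩 ∧ #𝒩 = κ})

/-- the weight (at least `ℵ₀` by convention) -/
noncomputable def weight (Z : Type u) [TopologicalSpace Z] : Cardinal.{u} :=
  max ℵ₀ (sInf {κ | ∃ ℬ : Set (Set Z), IsTopologicalBasis ℬ ∧ #ℬ = κ})

/-- scatteredly continuous functions -/
def ScatteredlyContinuous {X : Type u} [TopologicalSpace X] (f : X → ℝ) : Prop :=
  ∀ A : Set X, A.Nonempty → ∃ a : A, ContinuousAt (fun z : A => f z) a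

/-- the set `{0,1}^ℝ` -/
def XX : Type := ℝ → Bool

/-- the topology of countable supports: a set is open iff with every point `x` it contains all `y` which
agree with `x` on some countable set of coordinates -/
instance : TopologicalSpace XX where
  IsOpen U := ∀ x ∈ U, ∃ C : Set ℝ, C.Countable ∧ ∀ y : XX, (∀ c ∈ C, y c = x c) → y ∈ U
  isOpen_univ := fun _ _ => ⟨∅, countable_empty, fun _ _ => mem_univ _⟩
  isOpen_inter := by
    rintro U V hU hV x ⟨hxU, hxV⟩
    obtain ⟨C, hC, h1⟩ := hU x hxU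
    obtain ⟨D, hD, h2⟩ := hV x hxV
    exact ⟨C ∪ D, hC.union hD, fun y hy => ⟨h1 y fun c hc => hy c (Or.inl hc), h2 y fun c hc => hy c (Or.inr hc)⟩⟩
  isOpen_sUnion := by
    rintro S hS x ⟨U, hU, hx⟩
    obtain ⟨C, hC, h1⟩ := hS U hU x hx
    exact ⟨C, hC, fun y hy => ⟨U, hU, h1 y hy⟩⟩

theorem isOpen_XX {U : Set XX} : IsOpen U ↔
    ∀ x ∈ U, ∃ C : Set ℝ, C.Countable ∧ ∀ y : XX, (∀ c ∈ C, y c = x c) → y ∈ U := Iff.rfl

/-- complements of countable sets are open -/
theorem isOpen_compl_countable {S : Set XX} (hS : S.Countable) : IsOpen Sᶜ := by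
  rw [isOpen_XX]
  intro x hx
  have h : ∀ s : XX, ∃ c : ℝ, s ∈ S → s c ≠ x c := by
    intro s
    by_cases hs : s ∈ S
    · have hne : s ≠ x := fun h => hx (h ▸ hs)
      by_contra hcon
      push Not at hcon
      exact hne (funext fun c => (hcon c).2)
    · exact ⟨0, fun h => absurd h hs⟩
  choose c hc using h
  refine ⟨c '' S, hS.image c, fun y hy hyS => ?_⟩
  exact hc y hyS (hy _ ⟨y, hyS, rfl⟩)

/-- a function with countable support is scatteredly continuous -/
theorem scattered_of_countable {f : XX → ℝ} (hf : {x | f x ≠ 0}.Countable) : ScatteredlyContinuous f := by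
  rintro A ⟨a, ha⟩
  by_cases h : ∃ b ∈ A, f b = 0
  · obtain ⟨b, hb, hfb⟩ := h
    refine ⟨⟨b, hb⟩, ?_⟩
    have ho : IsOpen ({x | f x ≠ 0}ᶜ : Set XX) := isOpen_compl_countable hf
    have hmem : ((fun z : A => z.1) ⁻¹' ({x | f x ≠ 0}ᶜ)) ∈ 𝓝 (⟨b, hb⟩ : A) :=
      (ho.preimage continuous_subtype_val).mem_nhds (by simpa using hfb)
    have hev : (fun z : A => f z) =ᶠ[𝓝 (⟨b, hb⟩ : A)] fun _ => 0 := by
      filter_upwards [hmem] with z hz
      simpa using hz
    exact (continuousAt_const (y := (0 : ℝ))).congr hev.symm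
  · push Not at h
    have hA : A.Countable := hf.mono fun b hb => h b hb
    refine ⟨⟨a, ha⟩, ?_⟩
    have ho : IsOpen ((A \ {a})ᶜ : Set XX) := isOpen_compl_countable (hA.mono diff_subset)
    have hmem : ((fun z : A => z.1) ⁻¹' ((A \ {a})ᶜ)) ∈ 𝓝 (⟨a, ha⟩ : A) :=
      (ho.preimage continuous_subtype_val).mem_nhds (by simp)
    have hev : (fun z : A => f z) =ᶠ[𝓝 (⟨a, ha⟩ : A)] fun _ => f a := by
      filter_upwards [hmem] with z hz
      have : z.1 = a := by
        by_contra hne
        exact hz ⟨z.2, hne⟩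
      rw [this]
    exact (continuousAt_const (y := f a)).congr hev.symm

/-- the compact convex set -/
def K : Set (XX → ℝ) := {f | (∀ x, 0 ≤ f x) ∧ ∀ F : Finset XX, ∑ x ∈ F, f x ≤ 1}

theorem K_scattered {f : XX → ℝ} (hf : f ∈ K) : ScatteredlyContinuous f := by
  apply scattered_of_countable
  have hs : Summable f := summable_of_sum_le hf.1 hf.2
  exact hs.countable_support

theorem K_compact : IsCompact K := by
  have hsub : K ⊆ Set.pi univ fun _ => Icc (0 : ℝ) 1 := by
    intro f hf x _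
    refine ⟨hf.1 x, ?_⟩
    simpa using hf.2 {x}
  refine (isCompact_univ_pi fun _ => isCompact_Icc).of_isClosed_subset ?_ hsub
  have e : K = (⋂ x, {f : XX → ℝ | 0 ≤ f x}) ∩ ⋂ F : Finset XX, {f : XX → ℝ | ∑ x ∈ F, f x ≤ 1} := by
    ext f; simp [K]
  rw [e]
  refine (isClosed_iInter fun x => isClosed_le continuous_const (continuous_apply x)).inter
    (isClosed_iInter fun F => isClosed_le ?_ continuous_const)
  exact continuous_finsetSum F fun x _ => continuous_apply x

theorem K_convex : Convex ℝ K := by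
  intro f hf g hg a b ha hb hab
  refine ⟨fun x => ?_, fun F => ?_⟩
  · have h1 := hf.1 x
    have h2 := hg.1 x
    change 0 ≤ a * f x + b * g x
    positivity
  · have h1 := hf.2 F
    have h2 := hg.2 F
    change ∑ x ∈ F, (a * f x + b * g x) ≤ 1
    rw [Finset.sum_add_distrib, ← Finset.mul_sum, ← Finset.mul_sum]
    nlinarith

open Classical in
/-- the characteristic functions of points -/
noncomputable def chi (x : XX) : XX → ℝ := fun y => if y = x then 1 else 0

theorem chi_mem (x : XX) : chi x ∈ K := by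
  classical
  refine ⟨fun y => ?_, fun F => ?_⟩
  · unfold chi; split_ifs <;> norm_num
  · unfold chi
    rw [Finset.sum_ite_eq']
    split_ifs <;> norm_num

theorem card_XX : #XX = 2 ^ 𝔠 := by
  change #(ℝ → Bool) = 2 ^ 𝔠
  simp [Cardinal.mk_real]

theorem weight_K : 2 ^ 𝔠 ≤ weight K := by
  refine le_trans ?_ (le_max_right _ _)
  refine le_csInf ⟨_, _, isTopologicalBasis_opens, rfl⟩ ?_
  rintro _ ⟨ℬ, hℬ, rfl⟩
  let V : XX → Set K := fun x => {f | 1 / 2 < f.1 x}
  have hV : ∀ x, IsOpen (V x) := fun x =>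
    isOpen_lt continuous_const ((continuous_apply x).comp continuous_subtype_val)
  let c : XX → K := fun x => ⟨chi x, chi_mem x⟩
  have hcV : ∀ x y, c x ∈ V y ↔ x = y := by
    intro x y
    change 1 / 2 < chi x y ↔ x = y
    unfold chi
    split_ifs with h
    · exact ⟨fun _ => h.symm, fun _ => by norm_num⟩
    · exact ⟨fun h' => by norm_num at h', fun h' => absurd h'.symm h⟩
  choose B hB1 hB2 hB3 using fun x => hℬ.exists_subset_of_mem_open ((hcV x x).mpr rfl) (hV x)
  have hinj : Function.Injective (fun x => (⟨B x, hB1 x⟩ : ℬ)) := by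
    intro x y hxy
    have h1 : B x = B y := congrArg Subtype.val hxy
    exact (hcV x y).mp (hB3 y (h1 ▸ hB2 x))
  rw [← card_XX]
  exact mk_le_of_injective hinj

theorem nw_XX : nw XX ≤ 𝔠 := by
  refine max_le aleph0_le_continuum ?_
  let N : (ℕ → ℝ) × (ℕ → Bool) → Set XX := fun p => {y | ∀ n, y (p.1 n) = p.2 n}
  have hN : IsNetwork (range N) := by
    intro x U hU hx
    obtain ⟨C, hC, hCU⟩ := isOpen_XX.mp hU x hx
    obtain ⟨c, hc⟩ : ∃ c : ℕ → ℝ, C ⊆ range c := by
      rcases C.eq_empty_or_nonempty with rfl | hne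
      · exact ⟨fun _ => 0, empty_subset _⟩
      · obtain ⟨c, hc⟩ := hC.exists_eq_range hne
        exact ⟨c, hc.le⟩
    refine ⟨N (c, fun n => x (c n)), ⟨_, rfl⟩, fun _ => rfl, fun y hy => hCU y fun t ht => ?_⟩
    obtain ⟨n, rfl⟩ := hc ht
    exact hy n
  have hmem : #(range N) ∈ {κ | ∃ 𝒩 : Set (Set XX), IsNetwork 𝒩 ∧ #𝒩 = κ} := ⟨range N, hN, rfl⟩
  refine (csInf_le' hmem).trans ?_
  refine mk_range_le.trans ?_
  have h1 : #((ℕ → ℝ) × (ℕ → Bool)) = 𝔠 := by
    simp [Cardinal.mk_prod, Cardinal.mk_real]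
  exact h1.le

/-- **There are a topological space `X` and a compact convex set `K` of scatteredly continuous functions on
`X` such that `w(K) > nw(X)`.** -/
theorem result : ∃ (X : Type) (_ : TopologicalSpace X) (K : Set (X → ℝ)),
    (∀ f ∈ K, ScatteredlyContinuous f) ∧ IsCompact K ∧ Convex ℝ K ∧ nw X < weight K :=
  ⟨XX, inferInstance, K, fun _ hf => K_scattered hf, K_compact, K_convex,
    nw_XX.trans_lt ((cantor 𝔠).trans_le weight_K)⟩

end Pool.Agent.Results.MP_3f847c_gt.WeightExceedsNetworkWeight
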